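import Mathlib

set_option linter.unusedVariables false
set_option linter.unusedSectionVars false

namespace Pool.Agent.Results.MP_1433c5_co.HalfLimit

open SimpleGraph

/-- The hypercube graph: two vertices are adjacent iff they differ in exactly one coordinate. -/
def cube (ι : Type) : SimpleGraph (ι → Bool) where
  Adj x y := ∃! i, x i ≠ y i
  symm := ⟨by
    rintro x y ⟨i, hi, hu⟩
    exact ⟨i, fun h => hi h.symm, fun j hj => hu j (fun h => hj h.symm)⟩⟩
  loopless := ⟨by
    rintro x ⟨i, hi, -⟩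
    exact hi rfl⟩

/-- `T 0, …, T (k-1)` are completely independent spanning trees of `G`. -/
structure IsCIST {V : Type} (G : SimpleGraph V) {k : ℕ} (T : Fin k → SimpleGraph V) : Prop where
  sub : ∀ i, T i ≤ G
  tree : ∀ i, (T i).IsTree
  disj : ∀ i j, i ≠ j → ∀ u v, u ≠ v → ∀ (p : (T i).Walk u v) (q : (T j).Walk u v),
    p.IsPath → q.IsPath →
      (∀ e, e ∈ p.edges → e ∉ q.edges) ∧
      (∀ w, w ∈ p.support → w ∈ q.support → w = u ∨ w = v)

/-- `f n` is the largest number of completely independent spanning trees of `Q_n`. -/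
noncomputable def f (n : ℕ) : ℕ :=
  sSup {k | ∃ T : Fin k → SimpleGraph (Fin n → Bool), IsCIST (cube (Fin n)) T}

theorem two_nbrs {V : Type} {T : SimpleGraph V} {u v : V} (p : T.Walk u v) (hp : p.IsPath)
    (w : V) (hw : w ∈ p.support) (hwu : w ≠ u) (hwv : w ≠ v) :
    ∃ a b, a ≠ b ∧ T.Adj w a ∧ T.Adj w b := by
  induction p with
  | nil => simp at hw; exact absurd hw hwu
  | @cons u u' v h p' ih =>
    rw [Walk.cons_isPath_iff] at hp
    rw [Walk.support_cons] at hw
    have hw' : w ∈ p'.support := by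
      rcases List.mem_cons.1 hw with h1 | h1
      · exact absurd h1 hwu
      · exact h1
    by_cases hwu' : w = u'
    · subst hwu'
      cases p' with
      | nil => exact absurd rfl hwv
      | @cons _ u'' _ h' p'' =>
        refine ⟨u, u'', ?_, h.symm, h'⟩
        rintro rfl
        apply hp.2
        rw [Walk.support_cons]
        exact List.mem_cons_of_mem _ (Walk.start_mem_support _)
    · exact ih hp.1 hw' hwu' hwv

/-- The abstract construction: a colouring with connected classes and conflict free picks. -/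
theorem cist_of_coloring {V : Type} [Finite V] (G : SimpleGraph V) {k : ℕ} (col : V → Fin k)
    (hsurj : Function.Surjective col)
    (hconn : ∀ v w, col v = col w →
      Relation.ReflTransGen (fun x y => G.Adj x y ∧ col x = col y) v w)
    (P : Fin k → V → V)
    (hP : ∀ v c, col v ≠ c → G.Adj v (P c v) ∧ col (P c v) = c ∧ P (col v) (P c v) ≠ v) :
    ∃ T : Fin k → SimpleGraph V, IsCIST G T := by
  classical
  let M : Fin k → SimpleGraph V := fun c =>
    { Adj := fun x y => (G.Adj x y ∧ col x = c ∧ col y = c) ∨ (col x ≠ c ∧ y = P c x) ∨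
        (col y ≠ c ∧ x = P c y)
      symm := ⟨by
        rintro x y (⟨h1, h2, h3⟩ | h | h)
        · exact Or.inl ⟨h1.symm, h3, h2⟩
        · exact Or.inr (Or.inr h)
        · exact Or.inr (Or.inl h)⟩
      loopless := ⟨by
        rintro x (⟨h1, h2, h3⟩ | ⟨h1, h2⟩ | ⟨h1, h2⟩)
        · exact G.loopless.irrefl x h1
        · exact h1 (h2 ▸ (hP x c h1).2.1)
        · exact h1 (h2 ▸ (hP x c h1).2.1)⟩ }
  have hM : ∀ c x y, (M c).Adj x y ↔ ((G.Adj x y ∧ col x = c ∧ col y = c) ∨
      (col x ≠ c ∧ y = P c x) ∨ (col y ≠ c ∧ x = P c y)) := fun c x y => Iff.rfl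
  have hMG : ∀ c, M c ≤ G := by
    intro c x y h
    rcases (hM c x y).1 h with ⟨h1, h2, h3⟩ | ⟨h1, h2⟩ | ⟨h1, h2⟩
    · exact h1
    · rw [h2]; exact (hP x c h1).1
    · rw [h2]; exact (hP y c h1).1.symm
  have hMc : ∀ c, (M c).Connected := by
    intro c
    obtain ⟨v0, hv0⟩ := hsurj c
    have key : ∀ x y, Relation.ReflTransGen (fun x y => G.Adj x y ∧ col x = col y) x y →
        col x = c → col y = c ∧ (M c).Reachable x y := by
      intro x y h hx
      induction h with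
      | refl => exact ⟨hx, Reachable.refl _⟩
      | tail _ h2 ih =>
        refine ⟨h2.2 ▸ ih.1, ih.2.trans ?_⟩
        apply SimpleGraph.Adj.reachable
        exact (hM _ _ _).2 (Or.inl ⟨h2.1, ih.1, h2.2 ▸ ih.1⟩)
    have hreach : ∀ x, (M c).Reachable x v0 := by
      intro x
      by_cases hx : col x = c
      · exact (key x v0 (hconn x v0 (by rw [hx, hv0])) hx).2
      · have h1 := hP x c hx
        have h2 : (M c).Adj x (P c x) := (hM _ _ _).2 (Or.inr (Or.inl ⟨hx, rfl⟩))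
        exact h2.reachable.trans (key _ v0 (hconn _ v0 (by rw [h1.2.1, hv0])) h1.2.1).2
    have : Nonempty V := ⟨v0⟩
    exact ⟨fun x y => (hreach x).trans (hreach y).symm⟩
  have hT : ∀ c, ∃ T : SimpleGraph V, T ≤ M c ∧ T.IsTree := fun c => (hMc c).exists_isTree_le
  choose T hTle hTtree using hT
  refine ⟨T, ⟨fun i => (hTle i).trans (hMG i), hTtree, ?_⟩⟩
  intro i j hij u v huv p q hp hq
  constructor
  · intro e hep heq
    induction e using Sym2.ind with
    | _ x y =>
      have h1 : (M i).Adj x y := hTle i (Walk.adj_of_mem_edges p hep)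
      have h2 : (M j).Adj x y := hTle j (Walk.adj_of_mem_edges q heq)
      rcases (hM i x y).1 h1 with ⟨-, a1, a2⟩ | ⟨a1, a2⟩ | ⟨a1, a2⟩
      · rcases (hM j x y).1 h2 with ⟨-, b1, b2⟩ | ⟨b1, b2⟩ | ⟨b1, b2⟩
        · exact hij (a1.symm.trans b1)
        · have := (hP x j b1).2.1
          rw [← b2] at this
          exact hij (a2.symm.trans this)
        · have := (hP y j b1).2.1
          rw [← b2] at this
          exact hij (a1.symm.trans this)
      · have hy : col y = i := by rw [a2]; exact (hP x i a1).2.1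
        rcases (hM j x y).1 h2 with ⟨-, b1, b2⟩ | ⟨b1, b2⟩ | ⟨b1, b2⟩
        · exact hij (hy.symm.trans b2)
        · have := (hP x j b1).2.1
          rw [← b2] at this
          exact hij (hy.symm.trans this)
        · have hx : col x = j := by rw [b2]; exact (hP y j b1).2.1
          have := (hP x i a1).2.2
          rw [← a2, hx, ← b2] at this
          exact this rfl
      · have hx : col x = i := by rw [a2]; exact (hP y i a1).2.1
        rcases (hM j x y).1 h2 with ⟨-, b1, b2⟩ | ⟨b1, b2⟩ | ⟨b1, b2⟩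
        · exact hij (hx.symm.trans b1)
        · have hy : col y = j := by rw [b2]; exact (hP x j b1).2.1
          have := (hP y i a1).2.2
          rw [← a2, hy, ← b2] at this
          exact this rfl
        · have := (hP y j b1).2.1
          rw [← b2] at this
          exact hij (hx.symm.trans this)
  · intro w hwp hwq
    by_contra hcon
    push Not at hcon
    have hcol : ∀ (c : Fin k) (r : (T c).Walk u v), r.IsPath → w ∈ r.support → col w = c := by
      intro c r hr hwr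
      by_contra hne
      obtain ⟨a, b, hab, ha, hb⟩ := two_nbrs r hr w hwr hcon.1 hcon.2
      have uniq : ∀ a, (T c).Adj w a → a = P c w := by
        intro a ha
        rcases (hM c w a).1 (hTle c ha) with ⟨-, b1, b2⟩ | ⟨b1, b2⟩ | ⟨b1, b2⟩
        · exact absurd b1 hne
        · exact b2
        · exact absurd (by rw [b2]; exact (hP a c b1).2.1) hne
      exact hab ((uniq a ha).trans (uniq b hb).symm)
    exact hij ((hcol i p hp hwp).symm.trans (hcol j q hq hwq))


/-! ### flips and the upper bound -/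

section flips

variable {ι : Type} [DecidableEq ι]

/-- flip one bit -/
def flip (x : ι → Bool) (i : ι) : ι → Bool := Function.update x i (!x i)

@[simp] theorem flip_same (x : ι → Bool) (i : ι) : flip x i i = !x i := by simp [flip]

theorem flip_ne (x : ι → Bool) {i j : ι} (h : j ≠ i) : flip x i j = x j := by simp [flip, h]

@[simp] theorem flip_flip (x : ι → Bool) (i : ι) : flip (flip x i) i = x := by
  funext j
  by_cases h : j = i
  · subst h; simp
  · rw [flip_ne _ h, flip_ne _ h]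

theorem flip_inj {x : ι → Bool} {i j : ι} (h : flip (flip x i) j = x) : i = j := by
  by_contra hne
  have h1 := congrFun h i
  rw [flip_ne _ hne, flip_same] at h1
  cases hx : x i <;> simp [hx] at h1

theorem adj_flip (x : ι → Bool) (i : ι) : (cube ι).Adj x (flip x i) := by
  refine ⟨i, ?_, ?_⟩
  · simp only [flip_same]
    cases x i <;> simp
  · intro j hj
    by_contra hne
    exact hj (flip_ne x hne).symm

theorem adj_iff (x y : ι → Bool) : (cube ι).Adj x y ↔ ∃ i, y = flip x i := by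
  constructor
  · rintro ⟨i, hi, hu⟩
    refine ⟨i, ?_⟩
    funext j
    by_cases h : j = i
    · subst h
      rw [flip_same]
      revert hi
      cases x j <;> cases y j <;> simp
    · rw [flip_ne _ h]
      by_contra hne
      exact h (hu j (fun h' => hne h'.symm))
  · rintro ⟨i, rfl⟩
    exact adj_flip x i

end flips

theorem upper (n k : ℕ) (T : Fin k → SimpleGraph (Fin n → Bool))
    (hT : IsCIST (cube (Fin n)) T) : 2 * (k * (2 ^ n - 1)) ≤ n * 2 ^ n := by
  classical
  have hdeg : ∀ x, (cube (Fin n)).degree x ≤ n := by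
    intro x
    have h1 : (cube (Fin n)).neighborFinset x ⊆ Finset.univ.image (flip x) := by
      intro y hy
      rw [mem_neighborFinset, adj_iff] at hy
      obtain ⟨i, rfl⟩ := hy
      exact Finset.mem_image_of_mem _ (Finset.mem_univ _)
    calc (cube (Fin n)).degree x = ((cube (Fin n)).neighborFinset x).card := rfl
      _ ≤ (Finset.univ.image (flip x)).card := Finset.card_le_card h1
      _ ≤ (Finset.univ : Finset (Fin n)).card := Finset.card_image_le
      _ = n := by simp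
  have hE : 2 * (cube (Fin n)).edgeFinset.card ≤ n * 2 ^ n := by
    rw [← sum_degrees_eq_twice_card_edges]
    calc ∑ v, (cube (Fin n)).degree v ≤ ∑ v : Fin n → Bool, n := Finset.sum_le_sum (fun v _ => hdeg v)
      _ = n * 2 ^ n := by simp [mul_comm]
  have hdisj : ∀ i j, i ≠ j → Disjoint (T i).edgeFinset (T j).edgeFinset := by
    intro i j hij
    rw [Finset.disjoint_left]
    intro e he1 he2
    induction e using Sym2.ind with
    | _ u v =>
      rw [mem_edgeFinset, mem_edgeSet] at he1 he2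
      have h1 : (he1.toWalk).IsPath := by simp [he1.ne]
      have h2 : (he2.toWalk).IsPath := by simp [he2.ne]
      have := (hT.disj i j hij u v he1.ne he1.toWalk he2.toWalk h1 h2).1 s(u, v) (by simp)
      exact this (by simp)
  have hcard : ∀ i, (T i).edgeFinset.card = 2 ^ n - 1 := by
    intro i
    have := (hT.tree i).card_edgeFinset
    simp at this
    omega
  have hsum : k * (2 ^ n - 1) ≤ (cube (Fin n)).edgeFinset.card := by
    calc k * (2 ^ n - 1) = ∑ i : Fin k, (T i).edgeFinset.card := by simp [hcard]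
      _ = (Finset.univ.biUnion (fun i => (T i).edgeFinset)).card := by
          rw [Finset.card_biUnion]
          intro i _ j _ hij
          exact hdisj i j hij
      _ ≤ (cube (Fin n)).edgeFinset.card := by
          apply Finset.card_le_card
          intro e he
          rw [Finset.mem_biUnion] at he
          obtain ⟨i, -, hi⟩ := he
          rw [mem_edgeFinset] at hi ⊢
          exact edgeSet_mono (hT.sub i) hi
  omega

/-! ### the colouring -/

/-- `TD κ G`: the cube `{0,1}^κ` has a colouring by `G` such that every vertex has a neighbour of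
every colour. -/
def TD (κ G : Type) [DecidableEq κ] : Prop :=
  ∃ ψ : (κ → Bool) → G, ∀ x g, ∃ i, ψ (flip x i) = g

/-- coordinates -/
abbrev Om (A κ : Type) := (A × A) × Bool × κ

section construction

variable {A G κ γ : Type} [AddCommGroup A] [Fintype A] [DecidableEq A] [AddCommGroup G]
  [Fintype κ] [DecidableEq κ] [Fintype γ] [DecidableEq γ]

/-- linear syndrome -/
def s2 (w : Om A κ → Bool) : A × A := ∑ o : Om A κ, if w o then o.1 else 0

/-- the block of coordinates with label `(h, b)` -/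
def blk (w : Om A κ → Bool) (h : A × A) (b : Bool) : κ → Bool := fun k => w (h, b, k)

/-- nonlinear syndrome -/
def s1 (ψ : (κ → Bool) → G) (w : Om A κ → Bool) : G := ∑ β : (A × A) × Bool, ψ (blk w β.1 β.2)

theorem s2_flip (hA : ∀ a : A, a + a = 0) (w : Om A κ → Bool) (o : Om A κ) :
    s2 (flip w o) = s2 w + o.1 := by
  have hAA : ∀ p : A × A, p + p = 0 := fun p => Prod.ext (hA _) (hA _)
  have h1 : s2 (flip w o) + s2 w = o.1 := by
    unfold s2
    rw [← Finset.sum_add_distrib, Finset.sum_eq_single o]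
    · cases h : w o <;> simp [h]
    · intro b _ hb
      rw [flip_ne _ hb]
      exact hAA _
    · intro h; exact absurd (Finset.mem_univ _) h
  calc s2 (flip w o) = (s2 (flip w o) + s2 w) + s2 w := by rw [add_assoc, hAA, add_zero]
    _ = s2 w + o.1 := by rw [h1, add_comm]

theorem s1_flip (ψ : (κ → Bool) → G) (w : Om A κ → Bool) (h : A × A) (b : Bool) (k : κ) :
    s1 ψ (flip w (h, b, k)) = s1 ψ w - ψ (blk w h b) + ψ (flip (blk w h b) k) := by
  unfold s1
  rw [← Finset.add_sum_erase Finset.univ _ (Finset.mem_univ (h, b)),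
    ← Finset.add_sum_erase Finset.univ (fun β : (A × A) × Bool => ψ (blk w β.1 β.2))
      (Finset.mem_univ (h, b))]
  have h1 : blk (flip w (h, b, k)) h b = flip (blk w h b) k := by
    funext j
    by_cases hj : j = k
    · subst hj; simp [blk]
    · rw [flip_ne _ hj]
      unfold blk
      rw [flip_ne]
      intro h'
      exact hj (by simpa using h')
  have h2 : ∀ β ∈ Finset.univ.erase (h, b),
      ψ (blk (flip w (h, b, k)) β.1 β.2) = ψ (blk w β.1 β.2) := by
    intro β hβ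
    congr 1
    funext j
    unfold blk
    rw [flip_ne]
    intro h'
    apply Finset.ne_of_mem_erase hβ
    have := congrArg (fun o : Om A κ => (o.1, o.2.1)) h'
    simpa using this
  rw [Finset.sum_congr rfl h2]
  simp only [h1]
  abel

theorem target (hA : ∀ a : A, a + a = 0) (ψ : (κ → Bool) → G)
    (hψ : ∀ x g, ∃ i, ψ (flip x i) = g) (w : Om A κ → Bool) (b : Bool) (g : G) (h : A × A) :
    ∃ o : Om A κ, o.2.1 = b ∧ s1 ψ (flip w o) = g ∧ s2 (flip w o) = h := by
  have hAA : ∀ p : A × A, p + p = 0 := fun p => Prod.ext (hA _) (hA _)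
  obtain ⟨k, hk⟩ := hψ (blk w (h + s2 w) b) (g - s1 ψ w + ψ (blk w (h + s2 w) b))
  refine ⟨(h + s2 w, b, k), rfl, ?_, ?_⟩
  · rw [s1_flip, hk]; abel
  · rw [s2_flip hA]
    calc s2 w + (h + s2 w) = h + (s2 w + s2 w) := by abel
      _ = h := by rw [hAA, add_zero]

/-- regular syndromes -/
abbrev Rg (A : Type) [AddCommGroup A] := {h : A × A // h.1 ≠ 0 ∧ h.2 ≠ 0}

variable {K : ℕ}

/-- the colour of a vertex -/
def col (ψ : (κ → Bool) → G) (e : G × Rg A ≃ Fin K) (ζ : (γ → Bool) → Fin K)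
    (v : (Om A κ → Bool) × (γ → Bool)) : Fin K :=
  if h : (s2 v.1).1 ≠ 0 ∧ (s2 v.1).2 ≠ 0 then e (s1 ψ v.1, ⟨s2 v.1, h⟩) else ζ v.2

theorem col_reg (ψ : (κ → Bool) → G) (e : G × Rg A ≃ Fin K) (ζ : (γ → Bool) → Fin K)
    (w : Om A κ → Bool) (z : γ → Bool) (g : G) (h : Rg A) (h1 : s1 ψ w = g) (h2 : s2 w = h.1) :
    col ψ e ζ (w, z) = e (g, h) := by
  unfold col
  have h3 : (s2 w).1 ≠ 0 ∧ (s2 w).2 ≠ 0 := by rw [h2]; exact h.2
  rw [dif_pos h3]
  congr 1
  exact Prod.ext h1 (Subtype.ext h2)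

theorem col_irreg (ψ : (κ → Bool) → G) (e : G × Rg A ≃ Fin K) (ζ : (γ → Bool) → Fin K)
    (w : Om A κ → Bool) (z : γ → Bool) (h : ¬ ((s2 w).1 ≠ 0 ∧ (s2 w).2 ≠ 0)) :
    col ψ e ζ (w, z) = ζ z := by
  unfold col
  rw [dif_neg h]

/-- adjacency on pairs -/
def Adj2 (v v' : (Om A κ → Bool) × (γ → Bool)) : Prop :=
  (∃ o, v' = (flip v.1 o, v.2)) ∨ (∃ j, v' = (v.1, flip v.2 j))

theorem Adj2.symm {v v' : (Om A κ → Bool) × (γ → Bool)} (h : Adj2 v v') : Adj2 v' v := by
  rcases h with ⟨o, rfl⟩ | ⟨j, rfl⟩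
  · exact Or.inl ⟨o, by simp⟩
  · exact Or.inr ⟨j, by simp⟩

/-- one step inside a colour class -/
def Step (ψ : (κ → Bool) → G) (e : G × Rg A ≃ Fin K) (ζ : (γ → Bool) → Fin K)
    (v v' : (Om A κ → Bool) × (γ → Bool)) : Prop :=
  Adj2 v v' ∧ col ψ e ζ v = col ψ e ζ v'

theorem Step.symm {ψ : (κ → Bool) → G} {e : G × Rg A ≃ Fin K} {ζ : (γ → Bool) → Fin K}
    {v v' : (Om A κ → Bool) × (γ → Bool)} (h : Step ψ e ζ v v') : Step ψ e ζ v' v :=
  ⟨h.1.symm, h.2.symm⟩

theorem clear (ψ : (κ → Bool) → G) (e : G × Rg A ≃ Fin K) (ζ : (γ → Bool) → Fin K)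
    (z : γ → Bool) (w : Om A κ → Bool) (D : Om A κ → Prop) [DecidablePred D]
    (h : ∀ w' : Om A κ → Bool, (∀ o, ¬ D o → w' o = w o) → ¬ ((s2 w').1 ≠ 0 ∧ (s2 w').2 ≠ 0)) :
    Relation.ReflTransGen (Step ψ e ζ) (w, z) (fun o => if D o then false else w o, z) := by
  have key : ∀ S : Finset (Om A κ), (∀ o ∈ S, D o) →
      Relation.ReflTransGen (Step ψ e ζ) (w, z) (fun o => if o ∈ S then false else w o, z) := by
    intro S
    induction S using Finset.induction_on with
    | empty => intro _; simp; exact Relation.ReflTransGen.refl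
    | insert a S ha ih =>
      intro hS
      have h1 := ih (fun o ho => hS o (Finset.mem_insert_of_mem ho))
      have hDa : D a := hS a (Finset.mem_insert_self _ _)
      cases hwa : w a with
      | false =>
        have : (fun o => if o ∈ insert a S then false else w o) =
            (fun o => if o ∈ S then false else w o) := by
          funext o
          by_cases ho : o = a
          · subst ho; simp [ha, hwa]
          · simp [ho]
        rw [this]; exact h1
      | true =>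
        refine h1.tail ⟨Or.inl ⟨a, ?_⟩, ?_⟩
        · refine Prod.ext ?_ rfl
          funext o
          by_cases ho : o = a
          · subst ho; simp [ha, hwa]
          · simp only
            rw [flip_ne _ ho]
            simp [ho]
        · rw [col_irreg, col_irreg]
          · apply h
            intro o ho
            have : o ∉ insert a S := fun h' => ho (hS o h')
            simp [this]
          · apply h
            intro o ho
            have : o ∉ S := fun h' => ho (hS o (Finset.mem_insert_of_mem h'))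
            simp [this]
  have := key (Finset.univ.filter D) (by simp)
  simpa using this

/-- removing the coordinates whose label has both components nonzero -/
theorem removeN [Nonempty κ] (hA : ∀ a : A, a + a = 0) (ψ : (κ → Bool) → G)
    (e : G × Rg A ≃ Fin K) (ζ : (γ → Bool) → Fin K) (z : γ → Bool) :
    ∀ (n : ℕ) (w : Om A κ → Bool), (Finset.univ.filter
      (fun o : Om A κ => (o.1.1 ≠ 0 ∧ o.1.2 ≠ 0) ∧ w o = true)).card = n → s2 w = 0 →
    ∃ w' : Om A κ → Bool, Relation.ReflTransGen (Step ψ e ζ) (w, z) (w', z) ∧ s2 w' = 0 ∧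
      ∀ o : Om A κ, (o.1.1 ≠ 0 ∧ o.1.2 ≠ 0) → w' o = false := by
  intro n
  induction n with
  | zero =>
    intro w hw hs
    refine ⟨w, Relation.ReflTransGen.refl, hs, ?_⟩
    intro o ho
    rw [Finset.card_eq_zero] at hw
    by_contra hne
    have : o ∈ (Finset.univ.filter
      (fun o : Om A κ => (o.1.1 ≠ 0 ∧ o.1.2 ≠ 0) ∧ w o = true)) := by
      simp only [Finset.mem_filter, Finset.mem_univ, true_and]
      exact ⟨ho, by simpa using hne⟩
    rw [hw] at this
    simp at this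
  | succ n ih =>
    intro w hw hs
    have hpos : 0 < (Finset.univ.filter
      (fun o : Om A κ => (o.1.1 ≠ 0 ∧ o.1.2 ≠ 0) ∧ w o = true)).card := by omega
    obtain ⟨o, ho⟩ := Finset.card_pos.1 hpos
    have ho' := (Finset.mem_filter.1 ho).2
    obtain ⟨k0⟩ := ‹Nonempty κ›
    set α : Om A κ := ((o.1.1, 0), false, k0) with hα
    set β : Om A κ := ((0, o.1.2), false, k0) with hβ
    set w1 := flip w α with hw1
    set w2 := flip w1 o with hw2
    set w3 := flip w2 β with hw3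
    have e1 : s2 w1 = (o.1.1, 0) := by rw [hw1, s2_flip hA, hs, zero_add]
    have e2 : s2 w2 = (0, o.1.2) := by
      rw [hw2, s2_flip hA, e1]
      refine Prod.ext ?_ ?_
      · exact hA _
      · simp
    have e3 : s2 w3 = 0 := by
      rw [hw3, s2_flip hA, e2]
      refine Prod.ext ?_ ?_
      · simp [hβ]
      · exact hA _
    have c0 : col ψ e ζ (w, z) = ζ z := col_irreg _ _ _ _ _ (by rw [hs]; simp)
    have c1 : col ψ e ζ (w1, z) = ζ z := col_irreg _ _ _ _ _ (by rw [e1]; simp)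
    have c2 : col ψ e ζ (w2, z) = ζ z := col_irreg _ _ _ _ _ (by rw [e2]; simp)
    have c3 : col ψ e ζ (w3, z) = ζ z := col_irreg _ _ _ _ _ (by rw [e3]; simp)
    have conn : Relation.ReflTransGen (Step ψ e ζ) (w, z) (w3, z) := by
      have t1 : Step ψ e ζ (w, z) (w1, z) := ⟨Or.inl ⟨α, rfl⟩, by rw [c0, c1]⟩
      have t2 : Step ψ e ζ (w1, z) (w2, z) := ⟨Or.inl ⟨o, rfl⟩, by rw [c1, c2]⟩
      have t3 : Step ψ e ζ (w2, z) (w3, z) := ⟨Or.inl ⟨β, rfl⟩, by rw [c2, c3]⟩
      exact ((Relation.ReflTransGen.single t1).tail t2).tail t3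
    have hval : ∀ o' : Om A κ, (o'.1.1 ≠ 0 ∧ o'.1.2 ≠ 0) →
        w3 o' = if o' = o then !(w o') else w o' := by
      intro o' ho'N
      have hne1 : o' ≠ β := by
        rintro rfl
        exact ho'N.1 rfl
      have hne2 : o' ≠ α := by
        rintro rfl
        exact ho'N.2 rfl
      rw [hw3, flip_ne _ hne1, hw2]
      by_cases h : o' = o
      · subst h
        rw [flip_same, hw1, flip_ne _ hne2]; simp
      · rw [flip_ne _ h, hw1, flip_ne _ hne2]; simp [h]
    have hset : (Finset.univ.filter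
        (fun o : Om A κ => (o.1.1 ≠ 0 ∧ o.1.2 ≠ 0) ∧ w3 o = true)) =
        (Finset.univ.filter
        (fun o : Om A κ => (o.1.1 ≠ 0 ∧ o.1.2 ≠ 0) ∧ w o = true)).erase o := by
      ext o'
      simp only [Finset.mem_filter, Finset.mem_univ, true_and, Finset.mem_erase]
      constructor
      · rintro ⟨hN, h3⟩
        rw [hval o' hN] at h3
        by_cases h : o' = o
        · subst h
          simp [ho'.2] at h3
        · rw [if_neg h] at h3
          exact ⟨h, hN, h3⟩
      · rintro ⟨h, hN, h3⟩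
        exact ⟨hN, by rw [hval o' hN, if_neg h]; exact h3⟩
    obtain ⟨w', hw', hs', hN'⟩ := ih w3 (by rw [hset, Finset.card_erase_of_mem ho, hw]; rfl) e3
    exact ⟨w', conn.trans hw', hs', hN'⟩

theorem toZero [Nonempty κ] (hA : ∀ a : A, a + a = 0) (ψ : (κ → Bool) → G)
    (e : G × Rg A ≃ Fin K) (ζ : (γ → Bool) → Fin K) (z : γ → Bool) (w : Om A κ → Bool)
    (hw : s2 w = 0) :
    Relation.ReflTransGen (Step ψ e ζ) (w, z) (fun _ => false, z) := by
  classical
  obtain ⟨w', hw', hs', hN'⟩ := removeN hA ψ e ζ z _ w rfl hw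
  refine hw'.trans ?_
  have snd_eq : ∀ u u' : Om A κ → Bool, (∀ o : Om A κ, o.1.2 ≠ 0 → u o = u' o) →
      (s2 u).2 = (s2 u').2 := by
    intro u u' huu
    unfold s2
    rw [Prod.snd_sum, Prod.snd_sum]
    refine Finset.sum_congr rfl (fun o _ => ?_)
    by_cases h : o.1.2 = 0
    · cases u o <;> cases u' o <;> simp [h]
    · rw [huu o h]
  have fst_eq : ∀ u u' : Om A κ → Bool, (∀ o : Om A κ, o.1.1 ≠ 0 → u o = u' o) →
      (s2 u).1 = (s2 u').1 := by
    intro u u' huu
    unfold s2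
    rw [Prod.fst_sum, Prod.fst_sum]
    refine Finset.sum_congr rfl (fun o _ => ?_)
    by_cases h : o.1.1 = 0
    · cases u o <;> cases u' o <;> simp [h]
    · rw [huu o h]
  have h1 := clear ψ e ζ z w' (fun o => o.1.2 = 0) (by
    intro u hu hcon
    apply hcon.2
    rw [snd_eq u w' (fun o ho => hu o ho), hs']
    rfl)
  refine h1.trans ?_
  set w4 : Om A κ → Bool := fun o => if o.1.2 = 0 then false else w' o with hw4
  have hw4f : ∀ o : Om A κ, o.1.1 ≠ 0 → w4 o = false := by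
    intro o ho
    rw [hw4]
    by_cases h : o.1.2 = 0
    · simp [h]
    · simp only [h, if_false]
      exact hN' o ⟨ho, h⟩
  have h2 := clear ψ e ζ z w4 (fun o => o.1.1 = 0) (by
    intro u hu hcon
    apply hcon.1
    rw [fst_eq u (fun _ => false) (fun o ho => by rw [hu o ho]; exact hw4f o ho)]
    simp [s2])
  have h3 : (fun o : Om A κ => if o.1.1 = 0 then false else w4 o) = fun _ => false := by
    funext o
    by_cases h : o.1.1 = 0
    · simp [h]
    · simp only [h, if_false]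
      exact hw4f o h
  rw [h3] at h2
  exact h2

theorem moveZ (ψ : (κ → Bool) → G) (e : G × Rg A ≃ Fin K) (ζ : (γ → Bool) → Fin K)
    (w : Om A κ → Bool) (hw : (s2 w).1 ≠ 0 ∧ (s2 w).2 ≠ 0) (z z' : γ → Bool) :
    Relation.ReflTransGen (Step ψ e ζ) (w, z) (w, z') := by
  classical
  have hc : ∀ z, col ψ e ζ (w, z) = e (s1 ψ w, ⟨s2 w, hw⟩) := fun z =>
    col_reg ψ e ζ w z _ _ rfl rfl
  have key : ∀ S : Finset γ, Relation.ReflTransGen (Step ψ e ζ) (w, z)
      (w, fun j => if j ∈ S then z' j else z j) := by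
    intro S
    induction S using Finset.induction_on with
    | empty => simp; exact Relation.ReflTransGen.refl
    | insert a S ha ih =>
      by_cases hza : z' a = z a
      · have : (fun j => if j ∈ insert a S then z' j else z j) =
            (fun j => if j ∈ S then z' j else z j) := by
          funext j
          by_cases hj : j = a
          · subst hj; simp [ha, hza]
          · simp [hj]
        rw [this]; exact ih
      · refine ih.tail ⟨Or.inr ⟨a, ?_⟩, by rw [hc, hc]⟩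
        refine Prod.ext rfl ?_
        funext j
        by_cases hj : j = a
        · subst hj
          simp only [flip_same]
          simp only [Finset.mem_insert_self, if_true, ha, if_false]
          revert hza
          cases z' j <;> cases z j <;> simp
        · simp only
          rw [flip_ne _ hj]
          simp [hj]
  have := key Finset.univ
  simpa using this

/-- every colour class is connected -/
theorem conn [Nonempty κ] (hA : ∀ a : A, a + a = 0) (ψ : (κ → Bool) → G)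
    (hψ : ∀ x g, ∃ i, ψ (flip x i) = g)
    (e : G × Rg A ≃ Fin K) (ζ : (γ → Bool) → Fin K) (hζ : Function.Surjective ζ)
    (v v' : (Om A κ → Bool) × (γ → Bool)) (hvv : col ψ e ζ v = col ψ e ζ v') :
    Relation.ReflTransGen (Step ψ e ζ) v v' := by
  classical
  have hsymm : ∀ a b, Relation.ReflTransGen (Step ψ e ζ) a b →
      Relation.ReflTransGen (Step ψ e ζ) b a := by
    intro a b h
    induction h with
    | refl => exact Relation.ReflTransGen.refl
    | tail _ h2 ih => exact Relation.ReflTransGen.head h2.symm ih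
  obtain ⟨zc, hzc⟩ := hζ (col ψ e ζ v)
  have key : ∀ x, col ψ e ζ x = col ψ e ζ v →
      Relation.ReflTransGen (Step ψ e ζ) x (fun _ => false, zc) := by
    intro x hx
    obtain ⟨w, z⟩ := x
    obtain ⟨⟨g, h⟩, hc'⟩ := e.surjective (col ψ e ζ v)
    -- get to a regular vertex
    have h1 : ∃ w1 : Om A κ → Bool, Relation.ReflTransGen (Step ψ e ζ) (w, z) (w1, z) ∧
        ((s2 w1).1 ≠ 0 ∧ (s2 w1).2 ≠ 0) ∧ col ψ e ζ (w1, z) = col ψ e ζ v := by
      by_cases hr : (s2 w).1 ≠ 0 ∧ (s2 w).2 ≠ 0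
      · exact ⟨w, Relation.ReflTransGen.refl, hr, hx⟩
      · obtain ⟨o, -, ho1, ho2⟩ := target hA ψ hψ w true g h.1
        have hcol : col ψ e ζ (flip w o, z) = col ψ e ζ v := by
          rw [← hc']; exact col_reg ψ e ζ _ z g h ho1 ho2
        exact ⟨flip w o, Relation.ReflTransGen.single ⟨Or.inl ⟨o, rfl⟩, by rw [hcol, hx]⟩,
          by rw [ho2]; exact h.2, hcol⟩
    obtain ⟨w1, hw1, hr1, hcol1⟩ := h1
    refine hw1.trans ((moveZ ψ e ζ w1 hr1 z zc).trans ?_)
    obtain ⟨o, -, ho1, ho2⟩ := target hA ψ hψ w1 true g 0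
    have hcol2 : col ψ e ζ (w1, zc) = col ψ e ζ v := by
      rw [← hcol1, col_reg ψ e ζ w1 zc _ ⟨s2 w1, hr1⟩ rfl rfl,
        col_reg ψ e ζ w1 z _ ⟨s2 w1, hr1⟩ rfl rfl]
    have hcol3 : col ψ e ζ (flip w1 o, zc) = ζ zc := col_irreg ψ e ζ _ _ (by rw [ho2]; simp)
    have hst : Step ψ e ζ (w1, zc) (flip w1 o, zc) :=
      ⟨Or.inl ⟨o, rfl⟩, by rw [hcol2, hcol3, hzc]⟩
    exact Relation.ReflTransGen.head hst (toZero hA ψ e ζ zc _ ho2)
  exact (key v rfl).trans (hsymm _ _ (key v' hvv.symm))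

end construction

/-! ### assembling the trees -/

theorem build {A G κ γ : Type} [AddCommGroup A] [Fintype A] [DecidableEq A] [AddCommGroup G]
    [Fintype κ] [DecidableEq κ] [Fintype γ] [DecidableEq γ] [Nonempty κ] {K N : ℕ}
    (hA : ∀ a : A, a + a = 0) (hTD : TD κ G) (e : G × Rg A ≃ Fin K)
    (ζ : (γ → Bool) → Fin K) (hζ : Function.Surjective ζ) (en : Fin N ≃ Om A κ ⊕ γ) :
    ∃ T : Fin K → SimpleGraph (Fin N → Bool), IsCIST (cube (Fin N)) T := by
  classical
  obtain ⟨ψ, hψ⟩ := hTD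
  let Φ : (Om A κ → Bool) × (γ → Bool) → (Fin N → Bool) := fun v i => Sum.elim v.1 v.2 (en i)
  let Ψ : (Fin N → Bool) → (Om A κ → Bool) × (γ → Bool) := fun x =>
    (fun o => x (en.symm (Sum.inl o)), fun j => x (en.symm (Sum.inr j)))
  have hΨΦ : ∀ v, Ψ (Φ v) = v := by
    intro v
    refine Prod.ext ?_ ?_
    · funext o; simp [Φ, Ψ]
    · funext j; simp [Φ, Ψ]
  have hΦΨ : ∀ x, Φ (Ψ x) = x := by
    intro x
    funext i
    simp only [Φ, Ψ]
    cases h : en i with
    | inl o => rw [Sum.elim_inl, ← h, Equiv.symm_apply_apply]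
    | inr j => rw [Sum.elim_inr, ← h, Equiv.symm_apply_apply]
  have hadj : ∀ v v', Adj2 v v' → (cube (Fin N)).Adj (Φ v) (Φ v') := by
    intro v v' h
    rw [adj_iff]
    rcases h with ⟨o, rfl⟩ | ⟨j, rfl⟩
    · refine ⟨en.symm (Sum.inl o), ?_⟩
      funext i
      by_cases hi : i = en.symm (Sum.inl o)
      · subst hi; simp [Φ]
      · rw [flip_ne _ hi]
        simp only [Φ]
        cases h : en i with
        | inl o' =>
          have : o' ≠ o := by
            rintro rfl
            exact hi (by rw [← h]; simp)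
          simp [flip_ne _ this]
        | inr j => simp
    · refine ⟨en.symm (Sum.inr j), ?_⟩
      funext i
      by_cases hi : i = en.symm (Sum.inr j)
      · subst hi; simp [Φ]
      · rw [flip_ne _ hi]
        simp only [Φ]
        cases h : en i with
        | inl o => simp
        | inr j' =>
          have : j' ≠ j := by
            rintro rfl
            exact hi (by rw [← h]; simp)
          simp [flip_ne _ this]
  choose pk hpk1 hpk2 hpk3 using (fun w b g h => target hA ψ hψ w b g h)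
  let cl := col ψ e ζ
  let P : Fin K → (Om A κ → Bool) × (γ → Bool) → (Om A κ → Bool) × (γ → Bool) := fun c v =>
    (flip v.1 (pk v.1 (decide (cl v < c)) (e.symm c).1 (e.symm c).2.1), v.2)
  have hPcol : ∀ c v, cl (P c v) = c := by
    intro c v
    have h := col_reg ψ e ζ (P c v).1 v.2 (e.symm c).1 (e.symm c).2 (hpk2 _ _ _ _) (hpk3 _ _ _ _)
    have h2 : e ((e.symm c).1, (e.symm c).2) = c := by simp
    rw [h2] at h
    exact h
  have hPne : ∀ c v, cl v ≠ c → P (cl v) (P c v) ≠ v := by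
    intro c v hne hcon
    have h1 := congrArg Prod.fst hcon
    have h2 := flip_inj h1
    have h3 := hpk1 v.1 (decide (cl v < c)) (e.symm c).1 (e.symm c).2.1
    have h4 := hpk1 (P c v).1 (decide (cl (P c v) < cl v)) (e.symm (cl v)).1 (e.symm (cl v)).2.1
    rw [← h2, h3, hPcol] at h4
    rcases lt_or_gt_of_ne hne with h | h
    · have h' : ¬ c < cl v := not_lt.2 h.le
      simp [h, h'] at h4
    · have h' : ¬ cl v < c := not_lt.2 h.le
      simp [h, h'] at h4
  refine cist_of_coloring (cube (Fin N)) (fun x => cl (Ψ x)) ?_ ?_ (fun c x => Φ (P c (Ψ x))) ?_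
  · intro c
    exact ⟨Φ (P c (fun _ => false, fun _ => false)), by simp only [hΨΦ]; exact hPcol _ _⟩
  · intro x y hxy
    have h := conn hA ψ hψ e ζ hζ (Ψ x) (Ψ y) hxy
    have hr : Step ψ e ζ ≤ Function.onFun (fun x y => (cube (Fin N)).Adj x y ∧
        cl (Ψ x) = cl (Ψ y)) Φ := by
      intro a b hab
      refine ⟨hadj a b hab.1, ?_⟩
      rw [hΨΦ, hΨΦ]
      exact hab.2
    have h2 := Relation.ReflTransGen.lift Φ hr (Ψ x) (Ψ y) h
    simpa only [Function.onFun, hΦΨ] using h2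
  · intro x c hxc
    refine ⟨?_, ?_, ?_⟩
    · have := hadj (Ψ x) (P c (Ψ x)) (Or.inl ⟨_, rfl⟩)
      simpa only [hΦΨ] using this
    · simp only [hΨΦ]; exact hPcol _ _
    · intro hcon
      simp only [hΨΦ] at hcon
      apply hPne c (Ψ x) hxc
      have := congrArg Ψ hcon
      rwa [hΨΦ] at this

/-! ### small total domatic colourings -/

theorem TD_self {H : Type} [AddCommGroup H] [Fintype H] [DecidableEq H]
    (hH : ∀ h : H, h + h = 0) : TD H H := by
  refine ⟨fun x => ∑ h : H, if x h then h else 0, ?_⟩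
  intro x g
  have key : ∀ i : H, (∑ h : H, if (flip x i) h then h else 0) =
      (∑ h : H, if x h then h else 0) + i := by
    intro i
    have h1 : (∑ h : H, if (flip x i) h then h else 0) + (∑ h : H, if x h then h else 0) = i := by
      rw [← Finset.sum_add_distrib, Finset.sum_eq_single i]
      · cases h : x i <;> simp [h]
      · intro b _ hb
        rw [flip_ne _ hb]
        exact hH _
      · intro h; exact absurd (Finset.mem_univ _) h
    calc (∑ h : H, if (flip x i) h then h else 0)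
        = ((∑ h : H, if (flip x i) h then h else 0) + (∑ h : H, if x h then h else 0)) +
          (∑ h : H, if x h then h else 0) := by rw [add_assoc, hH, add_zero]
      _ = _ := by rw [h1, add_comm]
  refine ⟨g + ∑ h : H, if x h then h else 0, ?_⟩
  simp only [key]
  calc (∑ h : H, if x h then h else 0) + (g + ∑ h : H, if x h then h else 0)
      = g + ((∑ h : H, if x h then h else 0) + ∑ h : H, if x h then h else 0) := by abel
    _ = g := by rw [hH, add_zero]

theorem TD_map {κ G G' : Type} [DecidableEq κ] (h : TD κ G) (φ : G → G')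
    (hφ : Function.Surjective φ) : TD κ G' := by
  obtain ⟨ψ, hψ⟩ := h
  refine ⟨fun x => φ (ψ x), fun x g' => ?_⟩
  obtain ⟨g, rfl⟩ := hφ g'
  obtain ⟨i, hi⟩ := hψ x g
  exact ⟨i, by simp only [hi]⟩

theorem TD_proj {κ F V : Type} [DecidableEq κ] [Field F] [AddCommGroup V] [Module F V]
    [Fintype (Projectivization F V)] [DecidableEq (Projectivization F V)] [Nontrivial V]
    (h : TD κ F) : TD (Projectivization F V × κ) V := by
  obtain ⟨ψ, hψ⟩ := h
  let Ψ : (Projectivization F V × κ → Bool) → V := fun x =>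
    ∑ l : Projectivization F V, ψ (fun k => x (l, k)) • l.rep
  have key : ∀ x (l : Projectivization F V) (k : κ), Ψ (flip x (l, k)) =
      Ψ x + (ψ (flip (fun k => x (l, k)) k) - ψ (fun k => x (l, k))) • l.rep := by
    intro x l k
    simp only [Ψ]
    rw [← Finset.add_sum_erase Finset.univ _ (Finset.mem_univ l),
      ← Finset.add_sum_erase Finset.univ
        (fun l : Projectivization F V => ψ (fun k => x (l, k)) • l.rep) (Finset.mem_univ l)]
    have h1 : (fun k' => flip x (l, k) (l, k')) = flip (fun k => x (l, k)) k := by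
      funext j
      by_cases hj : j = k
      · subst hj; simp
      · rw [flip_ne _ hj, flip_ne]
        intro h'
        exact hj (by simpa using h')
    have h2 : ∀ l' ∈ Finset.univ.erase l,
        ψ (fun k' => flip x (l, k) (l', k')) • l'.rep = ψ (fun k' => x (l', k')) • l'.rep := by
      intro l' hl'
      congr 2
      funext j
      rw [flip_ne]
      intro h'
      apply Finset.ne_of_mem_erase hl'
      exact (Prod.ext_iff.1 h').1
    rw [Finset.sum_congr rfl h2]
    simp only [h1]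
    rw [sub_smul]
    abel
  refine ⟨Ψ, fun x w => ?_⟩
  by_cases hd : w - Ψ x = 0
  · obtain ⟨v, hv⟩ := exists_ne (0 : V)
    let l : Projectivization F V := Projectivization.mk F v hv
    obtain ⟨k, hk⟩ := hψ (fun k => x (l, k)) (ψ (fun k => x (l, k)))
    refine ⟨(l, k), ?_⟩
    rw [key, hk, sub_self, zero_smul, add_zero]
    exact (sub_eq_zero.1 hd).symm
  · let l : Projectivization F V := Projectivization.mk F (w - Ψ x) hd
    obtain ⟨a, ha⟩ := Projectivization.exists_smul_eq_mk_rep F (w - Ψ x) hd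
    obtain ⟨k, hk⟩ := hψ (fun k => x (l, k)) (ψ (fun k => x (l, k)) + (↑(a⁻¹) : F))
    refine ⟨(l, k), ?_⟩
    rw [key, hk, add_sub_cancel_left]
    have h3 : (↑(a⁻¹) : F) • l.rep = w - Ψ x := by
      show (↑(a⁻¹) : F) • (Projectivization.mk F (w - Ψ x) hd).rep = w - Ψ x
      rw [← ha, ← Units.smul_def, smul_smul]
      simp
    rw [h3]
    abel

theorem card_Rg {A : Type} [AddCommGroup A] [Fintype A] [DecidableEq A] :
    Fintype.card (Rg A) = (Fintype.card A - 1) ^ 2 := by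
  rw [Fintype.card_congr (Equiv.subtypeProdEquivProd (p := fun a : A => a ≠ 0)
    (q := fun a : A => a ≠ 0)), Fintype.card_prod]
  have : Fintype.card {a : A // a ≠ 0} = Fintype.card A - 1 := by
    rw [Fintype.card_subtype_compl, Fintype.card_subtype_eq]
  rw [this, sq]

/-- the lower bound, with all parameters -/
theorem LB (a r s m t c : ℕ) (hs : s ≠ 0) (hm : m ≠ 0) (ha : a ≠ 0) (hq : 3 ^ s ≤ 4 ^ r)
    (ht : t * (3 ^ s - 1) = 4 ^ r * (3 ^ (s * m) - 1))
    (hc : 3 ^ (s * m) * (2 ^ a - 1) ^ 2 ≤ 2 ^ c) :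
    ∃ T : Fin (3 ^ (s * m) * (2 ^ a - 1) ^ 2) → SimpleGraph (Fin (2 * 4 ^ a * t + c) → Bool),
      IsCIST (cube (Fin (2 * 4 ^ a * t + c))) T := by
  classical
  have : Fact (Nat.Prime 3) := ⟨by norm_num⟩
  let F := GaloisField 3 s
  have hF : Nat.card F = 3 ^ s := GaloisField.card 3 s hs
  have : Fintype F := Fintype.ofFinite F
  let H := Fin (2 * r) → ZMod 2
  have hH : ∀ h : H, h + h = 0 := fun h => by
    funext i
    exact CharTwo.add_self_eq_zero (h i)
  have hHc : Fintype.card H = 4 ^ r := by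
    simp only [H, Fintype.card_fun, ZMod.card, Fintype.card_fin]
    rw [pow_mul]; norm_num
  have hsurj : ∃ φ : H → F, Function.Surjective φ := by
    have h1 : Fintype.card F ≤ Fintype.card H := by
      rw [hHc, ← Nat.card_eq_fintype_card, hF]; exact hq
    obtain ⟨emb⟩ := Function.Embedding.nonempty_of_card_le h1
    exact ⟨Function.invFun emb, Function.invFun_surjective emb.injective⟩
  obtain ⟨φ, hφ⟩ := hsurj
  have hTDF : TD H F := TD_map (TD_self hH) φ hφ
  let V := Fin m → F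
  have : Nonempty (Fin m) := ⟨⟨0, Nat.pos_of_ne_zero hm⟩⟩
  have : Fintype (Projectivization F V) := Fintype.ofFinite _
  have hTD : TD (Projectivization F V × H) V := TD_proj hTDF
  have hVc : Nat.card V = 3 ^ (s * m) := by
    show Nat.card (Fin m → F) = _
    rw [Nat.card_fun, hF, Nat.card_eq_fintype_card, Fintype.card_fin, ← pow_mul]
  have hPc : Fintype.card (Projectivization F V) * (3 ^ s - 1) = 3 ^ (s * m) - 1 := by
    have := Projectivization.card F V
    rw [hVc, hF, Nat.card_eq_fintype_card] at this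
    exact this.symm
  have h3s : 0 < 3 ^ s - 1 := by
    have : 3 ^ 1 ≤ 3 ^ s := Nat.pow_le_pow_right (by norm_num) (Nat.pos_of_ne_zero hs)
    omega
  have hκc : Fintype.card (Projectivization F V × H) = t := by
    rw [Fintype.card_prod, hHc]
    apply Nat.eq_of_mul_eq_mul_right h3s
    rw [ht, ← hPc]; ring
  let A := Fin a → ZMod 2
  have hA : ∀ x : A, x + x = 0 := fun h => by
    funext i
    exact CharTwo.add_self_eq_zero (h i)
  have hAc : Fintype.card A = 2 ^ a := by
    simp only [A, Fintype.card_fun, ZMod.card, Fintype.card_fin]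
  have hVf : Fintype.card V = 3 ^ (s * m) := by rw [← Nat.card_eq_fintype_card, hVc]
  have hC : Fintype.card (V × Rg A) = 3 ^ (s * m) * (2 ^ a - 1) ^ 2 := by
    rw [Fintype.card_prod, card_Rg, hAc, hVf]
  let e : V × Rg A ≃ Fin (3 ^ (s * m) * (2 ^ a - 1) ^ 2) := Fintype.equivFinOfCardEq hC
  have hOm : Fintype.card (Om A (Projectivization F V × H) ⊕ Fin c) = 2 * 4 ^ a * t + c := by
    rw [Fintype.card_sum, Fintype.card_prod, Fintype.card_prod, Fintype.card_prod, hκc, hAc,
      Fintype.card_bool, Fintype.card_fin]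
    have : (4 : ℕ) ^ a = 2 ^ a * 2 ^ a := by rw [← mul_pow]; norm_num
    rw [this]; ring
  let en : Fin (2 * 4 ^ a * t + c) ≃ Om A (Projectivization F V × H) ⊕ Fin c :=
    (Fintype.equivFinOfCardEq hOm).symm
  have hKpos : 0 < 3 ^ (s * m) * (2 ^ a - 1) ^ 2 := by
    have : 2 ^ 1 ≤ 2 ^ a := Nat.pow_le_pow_right (by norm_num) (Nat.pos_of_ne_zero ha)
    have h2 : 0 < 2 ^ a - 1 := by omega
    positivity
  have hζ : ∃ ζ : (Fin c → Bool) → Fin (3 ^ (s * m) * (2 ^ a - 1) ^ 2), Function.Surjective ζ := by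
    have h1 : Fintype.card (Fin (3 ^ (s * m) * (2 ^ a - 1) ^ 2)) ≤ Fintype.card (Fin c → Bool) := by
      simpa using hc
    obtain ⟨emb⟩ := Function.Embedding.nonempty_of_card_le h1
    have : Nonempty (Fin (3 ^ (s * m) * (2 ^ a - 1) ^ 2)) := ⟨⟨0, hKpos⟩⟩
    exact ⟨Function.invFun emb, Function.invFun_surjective emb.injective⟩
  obtain ⟨ζ, hζ⟩ := hζ
  obtain ⟨v, hv⟩ := exists_ne (0 : V)
  have : Nonempty (Projectivization F V × H) := ⟨(Projectivization.mk F v hv, 0)⟩
  exact build hA hTD e ζ hζ en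

/-! ### numerics -/

theorem not_pow_eq (r s : ℕ) (hs : s ≠ 0) : (3 : ℕ) ^ s ≠ 4 ^ r := by
  intro h
  have h1 : Odd (3 ^ s) := Odd.pow (by decide)
  rcases Nat.eq_zero_or_pos r with hr | hr
  · subst hr
    have : 3 ^ 1 ≤ 3 ^ s := Nat.pow_le_pow_right (by norm_num) (Nat.pos_of_ne_zero hs)
    rw [h] at this
    norm_num at this
  · have h2 : Even (4 ^ r) := Even.pow_of_ne_zero (by decide) hr.ne'
    rw [h] at h1
    exact (Nat.not_even_iff_odd.2 h1) h2

theorem dioph (δ : ℝ) (hδ : 0 < δ) (hδ1 : δ < 1) :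
    ∃ r s : ℕ, s ≠ 0 ∧ 3 ^ s < 4 ^ r ∧ (1 - δ) * 4 ^ r ≤ (3 : ℝ) ^ s ∧ 1 ≤ δ * 4 ^ r := by
  have l3 : 0 < Real.log 3 := Real.log_pos (by norm_num)
  have l4 : 0 < Real.log 4 := Real.log_pos (by norm_num)
  set θ := Real.log 3 / Real.log 4 with hθ
  have hθpos : 0 < θ := div_pos l3 l4
  have hθl : θ * Real.log 4 = Real.log 3 := by rw [hθ]; field_simp
  have hirr : ∀ (r : ℤ) (s : ℕ), s ≠ 0 → (r : ℝ) ≠ s * θ := by
    intro r s hs h
    have hrpos : 0 < (r : ℝ) := by rw [h]; positivity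
    have hr0 : 0 < r := by exact_mod_cast hrpos
    obtain ⟨r', rfl⟩ := Int.eq_ofNat_of_zero_le hr0.le
    have h1 : (r' : ℝ) * Real.log 4 = s * Real.log 3 := by
      rw [← hθl]; push_cast at h; rw [h]; ring
    rw [← Real.log_pow, ← Real.log_pow] at h1
    have h2 := Real.log_injOn_pos (Set.mem_Ioi.2 (by positivity)) (Set.mem_Ioi.2 (by positivity)) h1
    have h3 : (4 : ℕ) ^ r' = 3 ^ s := by exact_mod_cast h2
    exact not_pow_eq r' s hs h3.symm
  have claimA : ∀ n : ℕ, 0 < n → ∃ (r : ℤ) (s : ℕ), s ≠ 0 ∧ 0 < (r : ℝ) - s * θ ∧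
      (r : ℝ) - s * θ ≤ 1 / (n + 1) := by
    intro n hn
    obtain ⟨j, k, hk, -, hjk⟩ := Real.exists_int_int_abs_mul_sub_le θ hn
    obtain ⟨k', rfl⟩ := Int.eq_ofNat_of_zero_le hk.le
    have hk0 : k' ≠ 0 := by rintro rfl; simp at hk
    rw [abs_le] at hjk
    push_cast at hjk
    have hne := hirr j k' hk0
    rcases lt_or_gt_of_ne hne with h | h
    · -- j < k θ
      set d := (k' : ℝ) * θ - j with hd
      have hdpos : 0 < d := by rw [hd]; linarith
      have hd1 : d ≤ 1 / (n + 1) := hjk.2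
      set M := ⌊1 / d⌋₊ with hM
      have hM1 : (M : ℝ) ≤ 1 / d := Nat.floor_le (by positivity)
      have hM2 : 1 / d < M + 1 := Nat.lt_floor_add_one _
      have hMd : (M : ℝ) * d ≤ 1 := by
        calc (M : ℝ) * d ≤ (1 / d) * d := by gcongr
          _ = 1 := by field_simp
      have hMd2 : 1 < (M + 1) * d := by
        calc (1 : ℝ) = (1 / d) * d := by field_simp
          _ < (M + 1) * d := by gcongr
      have hdle : d ≤ 1 := hd1.trans (by
        rw [div_le_one (by positivity)]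
        have : (0 : ℝ) ≤ n := by positivity
        linarith)
      have hMne : M ≠ 0 := by
        intro h0
        rw [h0] at hMd2
        simp at hMd2
        linarith
      have hs : M * k' ≠ 0 := Nat.mul_ne_zero hMne hk0
      have hne2 := hirr (M * j + 1) (M * k') hs
      refine ⟨M * j + 1, M * k', hs, ?_, ?_⟩
      · have h4 : ((M * j + 1 : ℤ) : ℝ) - ((M * k' : ℕ) : ℝ) * θ = 1 - M * d := by
          push_cast; rw [hd]; ring
        rw [h4]
        rcases eq_or_lt_of_le hMd with h5 | h5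
        · exfalso
          apply hne2
          have : ((M * j + 1 : ℤ) : ℝ) - ((M * k' : ℕ) : ℝ) * θ = 0 := by rw [h4, h5]; ring
          linarith
        · linarith
      · have h4 : ((M * j + 1 : ℤ) : ℝ) - ((M * k' : ℕ) : ℝ) * θ = 1 - M * d := by
          push_cast; rw [hd]; ring
        rw [h4]
        have : 1 - M * d < d := by linarith
        linarith
    · exact ⟨j, k', hk0, by linarith, by linarith [hjk.1]⟩
  set η := -Real.log (1 - δ) / Real.log 4 with hη
  have hηpos : 0 < η := by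
    apply div_pos _ l4
    have : Real.log (1 - δ) < 0 := Real.log_neg (by linarith) (by linarith)
    linarith
  obtain ⟨k0, hk0⟩ : ∃ k0 : ℕ, 1 / δ < 4 ^ k0 := pow_unbounded_of_one_lt _ (by norm_num)
  obtain ⟨n, hn⟩ := exists_nat_one_div_lt (show 0 < η / (k0 + 1) by positivity)
  obtain ⟨r, s, hs, h1, h2⟩ := claimA (n + 1) (Nat.succ_pos n)
  have hrpos : 0 < (r : ℝ) := by
    have : 0 ≤ (s : ℝ) * θ := by positivity
    linarith
  have hr0 : 0 < r := by exact_mod_cast hrpos
  obtain ⟨r', rfl⟩ := Int.eq_ofNat_of_zero_le hr0.le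
  have hr'1 : 1 ≤ r' := by
    have : (0 : ℤ) < r' := hr0
    omega
  push_cast at h1 h2 hrpos
  have h3 : ((k0 + 1 : ℕ) : ℝ) * ((r' : ℝ) - s * θ) ≤ η := by
    have h4 : (r' : ℝ) - s * θ ≤ η / (k0 + 1) := by
      refine h2.trans (le_trans ?_ hn.le)
      apply one_div_le_one_div_of_le
      · positivity
      · linarith
    have h5 : (0 : ℝ) < (k0 : ℝ) + 1 := by positivity
    push_cast
    calc ((k0 : ℝ) + 1) * ((r' : ℝ) - s * θ) ≤ (k0 + 1) * (η / (k0 + 1)) := by gcongr
      _ = η := by field_simp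
  refine ⟨(k0 + 1) * r', (k0 + 1) * s, Nat.mul_ne_zero (by omega) hs, ?_, ?_, ?_⟩
  · have h6 : (3 : ℝ) ^ ((k0 + 1) * s) < 4 ^ ((k0 + 1) * r') := by
      apply (Real.log_lt_log_iff (by positivity) (by positivity)).1
      rw [Real.log_pow, Real.log_pow, ← hθl]
      push_cast
      have : (s : ℝ) * θ < r' := by linarith
      calc ((k0 : ℝ) + 1) * s * (θ * Real.log 4) = ((k0 + 1) * (s * θ)) * Real.log 4 := by ring
        _ < ((k0 + 1) * r') * Real.log 4 := by gcongr
    exact_mod_cast h6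
  · have h1δ : 0 < 1 - δ := by linarith
    apply (Real.log_le_log_iff (by positivity) (by positivity)).1
    rw [Real.log_mul h1δ.ne' (by positivity), Real.log_pow, Real.log_pow, ← hθl]
    have h7 : Real.log (1 - δ) = -η * Real.log 4 := by rw [hη]; field_simp
    rw [h7]
    have h8 : -η + ((k0 + 1) * r' : ℕ) ≤ ((k0 + 1) * s : ℕ) * θ := by
      push_cast at h3 ⊢
      linarith
    calc -η * Real.log 4 + (((k0 + 1) * r' : ℕ) : ℝ) * Real.log 4
        = (-η + (((k0 + 1) * r' : ℕ) : ℝ)) * Real.log 4 := by ring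
      _ ≤ ((((k0 + 1) * s : ℕ) : ℝ) * θ) * Real.log 4 := by gcongr
      _ = _ := by ring
  · have h9 : (4 : ℝ) ^ k0 ≤ 4 ^ ((k0 + 1) * r') := by
      apply pow_le_pow_right₀ (by norm_num)
      nlinarith
    have h10 : 1 < δ * 4 ^ k0 := by
      rw [div_lt_iff₀ hδ] at hk0
      linarith
    calc (1 : ℝ) ≤ δ * 4 ^ k0 := h10.le
      _ ≤ δ * 4 ^ ((k0 + 1) * r') := by gcongr

theorem mem_of_LB (a r s m t c : ℕ) (hs : s ≠ 0) (hm : m ≠ 0) (ha : a ≠ 0) (hq : 3 ^ s ≤ 4 ^ r)
    (ht : t * (3 ^ s - 1) = 4 ^ r * (3 ^ (s * m) - 1))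
    (hc : 3 ^ (s * m) * (2 ^ a - 1) ^ 2 ≤ 2 ^ c) (hpos : 1 ≤ 2 * 4 ^ a * t + c) :
    3 ^ (s * m) * (2 ^ a - 1) ^ 2 ≤ f (2 * 4 ^ a * t + c) := by
  apply le_csSup
  · refine ⟨(2 * 4 ^ a * t + c) * 2 ^ (2 * 4 ^ a * t + c), ?_⟩
    rintro k ⟨T, hT⟩
    have h := upper _ _ T hT
    have h2 : 2 ^ 1 ≤ 2 ^ (2 * 4 ^ a * t + c) := Nat.pow_le_pow_right (by norm_num) hpos
    have h3 : 1 ≤ 2 ^ (2 * 4 ^ a * t + c) - 1 := by omega
    nlinarith
  · exact LB a r s m t c hs hm ha hq ht hc

theorem auxA1 (δ : ℝ) (r s m t : ℕ) (hq1 : 1 ≤ 3 ^ s)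
    (hge : (1 - δ) * 4 ^ r ≤ (3 : ℝ) ^ s) (h1Q : 1 ≤ δ * 4 ^ r)
    (ht : t * (3 ^ s - 1) = 4 ^ r * (3 ^ (s * m) - 1)) :
    (1 - 2 * δ) * (t : ℝ) ≤ 3 ^ (s * m) := by
  have hQpos : (0 : ℝ) < 4 ^ r := by positivity
  have h16 : (t : ℝ) * (3 ^ s - 1) = 4 ^ r * (3 ^ (s * m) - 1) := by
    have h18 : (1 : ℕ) ≤ 3 ^ (s * m) := Nat.one_le_pow _ _ (by norm_num)
    have h19 : (t : ℝ) * ((3 ^ s - 1 : ℕ) : ℝ) = (4 : ℝ) ^ r * ((3 ^ (s * m) - 1 : ℕ) : ℝ) := by
      exact_mod_cast ht
    rw [Nat.cast_sub hq1, Nat.cast_sub h18] at h19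
    push_cast at h19
    exact h19
  have h20 : (1 - 2 * δ) * 4 ^ r ≤ (3 : ℝ) ^ s - 1 := by linarith
  have h21 : (t : ℝ) * ((1 - 2 * δ) * 4 ^ r) ≤ (t : ℝ) * (3 ^ s - 1) :=
    mul_le_mul_of_nonneg_left h20 (by positivity)
  have h22 : (4 : ℝ) ^ r * (3 ^ (s * m) - 1) ≤ 4 ^ r * 3 ^ (s * m) :=
    mul_le_mul_of_nonneg_left (by linarith) hQpos.le
  have h23 : (4 : ℝ) ^ r * ((1 - 2 * δ) * (t : ℝ)) ≤ 4 ^ r * 3 ^ (s * m) := by
    calc (4 : ℝ) ^ r * ((1 - 2 * δ) * (t : ℝ)) = (t : ℝ) * ((1 - 2 * δ) * 4 ^ r) := by ring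
      _ ≤ (t : ℝ) * (3 ^ s - 1) := h21
      _ = 4 ^ r * (3 ^ (s * m) - 1) := h16
      _ ≤ 4 ^ r * 3 ^ (s * m) := h22
  exact le_of_mul_le_mul_left h23 hQpos

theorem auxA2 (δ : ℝ) (hδ : 0 < δ) (a a0 : ℕ) (haa0 : a0 ≤ a) (ha0 : 2 / δ < 2 ^ a0) :
    (1 - δ) * (4 : ℝ) ^ a ≤ (2 ^ a - 1) ^ 2 := by
  have h23 : (4 : ℝ) ^ a = 2 ^ a * 2 ^ a := by rw [← mul_pow]; norm_num
  have h24 : 2 ≤ δ * (2 : ℝ) ^ a := by
    rw [div_lt_iff₀ hδ] at ha0
    have h : (2 : ℝ) ^ a0 ≤ 2 ^ a := pow_le_pow_right₀ (by norm_num) haa0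
    have h' : (2 : ℝ) ^ a0 * δ ≤ 2 ^ a * δ := mul_le_mul_of_nonneg_right h hδ.le
    linarith
  have h25 : (0 : ℝ) < 2 ^ a := by positivity
  rw [h23]
  have h26 : 2 * (2 : ℝ) ^ a ≤ (δ * 2 ^ a) * 2 ^ a := mul_le_mul_of_nonneg_right h24 h25.le
  have h27 : ((2 : ℝ) ^ a - 1) ^ 2 = 2 ^ a * 2 ^ a - 2 * 2 ^ a + 1 := by ring
  rw [h27]
  linarith

theorem auxA3 (δ n : ℝ) (hδ : 0 ≤ δ) (hδ1 : δ ≤ 1 / 4) (hn : 0 ≤ n) :
    (1 - 5 * δ) / 2 * n ≤ (1 - 2 * δ) * ((1 - δ) * ((1 - δ) * ((1 - δ) * n / 2))) := by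
  have hpoly : (1 - 5 * δ) ≤ (1 - 2 * δ) * (1 - δ) ^ 3 := by
    have h1 : (1 - 2 * δ) * (1 - δ) ^ 3 - (1 - 5 * δ) =
        δ ^ 2 * (9 - 7 * δ + 2 * δ ^ 2) := by ring
    have h2 : 0 ≤ δ ^ 2 * (9 - 7 * δ + 2 * δ ^ 2) := by
      apply mul_nonneg (by positivity)
      nlinarith [sq_nonneg δ]
    linarith
  have h3 : (1 - 5 * δ) * (n / 2) ≤ ((1 - 2 * δ) * (1 - δ) ^ 3) * (n / 2) :=
    mul_le_mul_of_nonneg_right hpoly (by linarith)
  calc (1 - 5 * δ) / 2 * n = (1 - 5 * δ) * (n / 2) := by ring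
    _ ≤ ((1 - 2 * δ) * (1 - δ) ^ 3) * (n / 2) := h3
    _ = _ := by ring

theorem lower (δ : ℝ) (hδ : 0 < δ) (hδ1 : δ ≤ 1 / 4) :
    ∀ᶠ n : ℕ in Filter.atTop, (1 - 5 * δ) / 2 * n ≤ f n := by
  obtain ⟨r, s, hs, hlt, hge, h1Q⟩ := dioph δ hδ (by linarith)
  have hq3 : 3 ^ 1 ≤ 3 ^ s := Nat.pow_le_pow_right (by norm_num) (Nat.pos_of_ne_zero hs)
  have hq1 : 1 ≤ 3 ^ s := by omega
  have hltR : (3 : ℝ) ^ s < 4 ^ r := by exact_mod_cast hlt
  have hq3R : (3 : ℝ) ≤ 3 ^ s := by exact_mod_cast hq3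
  have hQpos : (0 : ℝ) < 4 ^ r := by positivity
  let S : ℕ → ℕ := fun m => ∑ i ∈ Finset.range m, (3 ^ s) ^ i
  let t : ℕ → ℕ := fun m => 4 ^ r * S m
  have hS : ∀ m, S m * (3 ^ s - 1) = 3 ^ (s * m) - 1 := by
    intro m
    have h := geom_sum_mul_add (3 ^ s - 1) m
    rw [Nat.sub_add_cancel hq1] at h
    rw [pow_mul, ← h]
    simp only [S]
    omega
  have ht : ∀ m, t m * (3 ^ s - 1) = 4 ^ r * (3 ^ (s * m) - 1) := by
    intro m
    simp only [t]
    rw [mul_assoc, hS]
  have hS1 : S 1 = 1 := by simp [S]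
  have hSs : ∀ m, S (m + 1) = 1 + 3 ^ s * S m := by
    intro m
    simp only [S]
    rw [Finset.sum_range_succ', Finset.mul_sum, pow_zero, add_comm]
    congr 1
    refine Finset.sum_congr rfl (fun i _ => ?_)
    rw [pow_succ]; ring
  let b : ℕ → ℝ := fun m => (t m : ℝ) / (4 ^ r) ^ m
  have hb1 : b 1 = 1 := by
    simp only [b, t, hS1]
    push_cast
    field_simp
  have hbs : ∀ m, (1 - δ) * b m ≤ b (m + 1) := by
    intro m
    simp only [b, t]
    rw [le_div_iff₀ (by positivity)]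
    have h2 : (1 - δ) * (((4 ^ r * S m : ℕ) : ℝ) / (4 ^ r) ^ m) * (4 ^ r) ^ (m + 1) =
        ((1 - δ) * 4 ^ r) * (4 ^ r * (S m : ℝ)) := by
      push_cast
      rw [pow_succ]
      field_simp
    rw [h2, hSs]
    push_cast
    have h3 : (0 : ℝ) ≤ 4 ^ r * (S m : ℝ) := by positivity
    calc ((1 - δ) * 4 ^ r) * (4 ^ r * (S m : ℝ)) ≤ 3 ^ s * (4 ^ r * (S m : ℝ)) := by gcongr
      _ ≤ 4 ^ r * (1 + 3 ^ s * (S m : ℝ)) := by nlinarith
  have hblim : Filter.Tendsto b Filter.atTop (nhds 0) := by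
    have hub : ∀ m, b m ≤ 4 ^ r * ((3 : ℝ) ^ s / 4 ^ r) ^ m := by
      intro m
      simp only [b]
      rw [div_pow, ← mul_div_assoc]
      apply div_le_div_of_nonneg_right _ (by positivity)
      have h4 : (t m : ℝ) ≤ 4 ^ r * 3 ^ (s * m) := by
        have h5 : t m ≤ 4 ^ r * 3 ^ (s * m) := by
          have h6 : 1 ≤ 3 ^ s - 1 := by omega
          calc t m = t m * 1 := by ring
            _ ≤ t m * (3 ^ s - 1) := Nat.mul_le_mul_left _ h6
            _ = 4 ^ r * (3 ^ (s * m) - 1) := ht m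
            _ ≤ 4 ^ r * 3 ^ (s * m) := Nat.mul_le_mul_left _ (Nat.sub_le _ _)
        exact_mod_cast h5
      rwa [pow_mul] at h4
    have hlim2 : Filter.Tendsto (fun m : ℕ => (4 : ℝ) ^ r * ((3 : ℝ) ^ s / 4 ^ r) ^ m)
        Filter.atTop (nhds 0) := by
      have := (tendsto_pow_atTop_nhds_zero_of_lt_one (r := (3 : ℝ) ^ s / 4 ^ r) (by positivity)
        (by rw [div_lt_one hQpos]; exact hltR)).const_mul ((4 : ℝ) ^ r)
      simpa using this
    exact squeeze_zero (fun m => by positivity) hub hlim2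
  obtain ⟨M, hM⟩ : ∃ M, 1 ≤ M ∧ b M ≤ 1 / 4 := by
    have h7 := hblim.eventually (gt_mem_nhds (show (0 : ℝ) < 1 / 4 by norm_num))
    obtain ⟨M, hM1, hM2⟩ := (h7.and (Filter.eventually_ge_atTop 1)).exists
    exact ⟨M, hM2, hM1.le⟩
  obtain ⟨a0, ha0⟩ : ∃ a0 : ℕ, 2 / δ < 2 ^ a0 := pow_unbounded_of_one_lt _ (by norm_num)
  obtain ⟨n0, hn0⟩ : ∃ n0 : ℕ, ∀ c ≥ n0, (c : ℝ) < δ * 2 ^ c := by
    have h8 := tendsto_pow_const_div_const_pow_of_one_lt 1 (show (1 : ℝ) < 2 by norm_num)
    have h9 := h8.eventually (gt_mem_nhds hδ)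
    obtain ⟨n0, hn0⟩ := Filter.eventually_atTop.1 h9
    refine ⟨n0, fun c hc => ?_⟩
    have := hn0 c hc
    rw [pow_one, div_lt_iff₀ (by positivity)] at this
    exact this
  obtain ⟨n1, hn1⟩ := exists_nat_gt ((2 : ℝ) * 4 ^ (r * M + a0 + 1) / (1 - δ))
  obtain ⟨n2, hn2⟩ := exists_nat_gt ((n0 : ℝ) / δ)
  filter_upwards [Filter.eventually_ge_atTop n1, Filter.eventually_ge_atTop n2] with n hnn1 hnn2
  have h1δ : 0 < 1 - δ := by linarith
  have hy1 : (2 : ℝ) * 4 ^ (r * M + a0 + 1) < (1 - δ) * n := by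
    have : (2 : ℝ) * 4 ^ (r * M + a0 + 1) / (1 - δ) < n :=
      hn1.trans_le (by exact_mod_cast hnn1)
    rw [div_lt_iff₀ h1δ] at this
    linarith
  have hδn : (n0 : ℝ) < δ * n := by
    have : (n0 : ℝ) / δ < n := hn2.trans_le (by exact_mod_cast hnn2)
    rw [div_lt_iff₀ hδ] at this
    linarith
  set y : ℝ := (1 - δ) * n / 2 with hy
  have hy2 : (4 : ℝ) ^ (r * M + a0 + 1) < y := by rw [hy]; linarith
  have hy3 : (1 : ℝ) ≤ y := by
    have : (1 : ℝ) ≤ 4 ^ (r * M + a0 + 1) := one_le_pow₀ (by norm_num)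
    linarith
  obtain ⟨l, hl1, hl2⟩ := exists_nat_pow_near hy3 (show (1 : ℝ) < 4 by norm_num)
  have hlbig : r * M + a0 + 1 < l + 1 := by
    have : (4 : ℝ) ^ (r * M + a0 + 1) < 4 ^ (l + 1) := hy2.trans hl2
    exact (pow_lt_pow_iff_right₀ (by norm_num)).1 this
  set ρ : ℝ := y / 4 ^ (l + 1) with hρ
  have hρ1 : 1 / 4 ≤ ρ := by
    rw [hρ, le_div_iff₀ (by positivity), pow_succ]
    linarith
  have hρ2 : ρ < 1 := by
    rw [hρ, div_lt_one (by positivity)]; exact hl2
  classical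
  have hex : ∃ m, 1 ≤ m ∧ b m ≤ ρ := ⟨M, hM.1, hM.2.trans hρ1⟩
  set m := Nat.find hex with hm
  have hm1 : 1 ≤ m ∧ b m ≤ ρ := Nat.find_spec hex
  have hmM : m ≤ M := Nat.find_min' hex ⟨hM.1, hM.2.trans hρ1⟩
  have hmne : m ≠ 1 := by
    intro h
    have := hm1.2
    rw [h, hb1] at this
    linarith
  obtain ⟨m', hm'⟩ : ∃ m', m = m' + 1 := ⟨m - 1, by omega⟩
  have hbm' : ρ < b m' := by
    have h10 := Nat.find_min hex (m := m') (by omega)
    by_contra hcon
    exact h10 ⟨by omega, not_lt.1 hcon⟩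
  have hbm : (1 - δ) * ρ ≤ b m := by
    rw [hm']
    refine le_trans ?_ (hbs m')
    gcongr
  have hrm : r * m ≤ r * M := Nat.mul_le_mul_left _ hmM
  set a := l + 1 - r * m with ha
  have haa0 : a0 ≤ a := by omega
  have hane : a ≠ 0 := by omega
  have hX : (4 : ℝ) ^ a * t m = 4 ^ (l + 1) * b m := by
    have h11 : (4 : ℝ) ^ (l + 1) = 4 ^ a * (4 ^ r) ^ m := by
      rw [← pow_mul, ← pow_add]
      congr 1
      omega
    rw [h11]
    simp only [b]
    field_simp
  set X : ℝ := (4 : ℝ) ^ a * t m with hXdef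
  have hXy : X ≤ y := by
    rw [hX]
    calc (4 : ℝ) ^ (l + 1) * b m ≤ 4 ^ (l + 1) * ρ := by gcongr; exact hm1.2
      _ = y := by rw [hρ]; field_simp
  have hXy2 : (1 - δ) * y ≤ X := by
    rw [hX]
    calc (1 - δ) * y = 4 ^ (l + 1) * ((1 - δ) * ρ) := by rw [hρ]; field_simp
      _ ≤ 4 ^ (l + 1) * b m := by gcongr
  have hn2X : 2 * 4 ^ a * t m ≤ n := by
    have h12 : ((2 * 4 ^ a * t m : ℕ) : ℝ) ≤ n := by
      push_cast
      have : (2 : ℝ) * 4 ^ a * (t m : ℝ) = 2 * X := by rw [hXdef]; ring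
      rw [this]
      have hn' : (0 : ℝ) ≤ δ * n := by positivity
      rw [hy] at hXy
      linarith
    exact_mod_cast h12
  obtain ⟨c, hc⟩ : ∃ c, n = 2 * 4 ^ a * t m + c := ⟨n - 2 * 4 ^ a * t m, by omega⟩
  have hcR : δ * n ≤ c := by
    have h13 : (n : ℝ) = 2 * X + c := by
      rw [hc, hXdef]; push_cast; ring
    rw [hy] at hXy
    linarith
  have hcn0 : n0 ≤ c := by
    have : (n0 : ℝ) < c := hδn.trans_le hcR
    exact_mod_cast this.le
  have hn2c : (n : ℝ) < 2 ^ c := by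
    have h14 := hn0 c hcn0
    have : δ * n < δ * 2 ^ c := hcR.trans_lt h14
    exact lt_of_mul_lt_mul_left this hδ.le
  have hn2c' : n < 2 ^ c := by exact_mod_cast hn2c
  have hSm : 3 ^ (s * m) ≤ t m := by
    simp only [t]
    rw [hm', hSs, pow_mul]
    have h15 : ∀ j, (3 ^ s) ^ j ≤ 1 + 3 ^ s * S j := by
      intro j
      induction j with
      | zero => simp
      | succ j ih =>
        rw [hSs, pow_succ]
        calc (3 ^ s) ^ j * 3 ^ s ≤ (1 + 3 ^ s * S j) * 3 ^ s := Nat.mul_le_mul_right _ ih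
          _ ≤ 1 + 3 ^ s * (1 + 3 ^ s * S j) := by
            rw [mul_comm]; exact Nat.le_add_left _ _
    calc (3 ^ s) ^ (m' + 1) = 3 ^ s * (3 ^ s) ^ m' := by rw [pow_succ]; ring
      _ ≤ 4 ^ r * (1 + 3 ^ s * S m') := Nat.mul_le_mul hlt.le (h15 m')
  have hpow4 : (2 ^ a - 1) ^ 2 ≤ 4 ^ a := by
    calc (2 ^ a - 1) ^ 2 ≤ (2 ^ a) ^ 2 := Nat.pow_le_pow_left (Nat.sub_le _ _) 2
      _ = 4 ^ a := by rw [← pow_mul, mul_comm, pow_mul]; norm_num
  have hK : 3 ^ (s * m) * (2 ^ a - 1) ^ 2 ≤ 2 ^ c := by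
    calc 3 ^ (s * m) * (2 ^ a - 1) ^ 2 ≤ t m * 4 ^ a := Nat.mul_le_mul hSm hpow4
      _ ≤ n := by nlinarith
      _ ≤ 2 ^ c := hn2c'.le
  have hnpos : 1 ≤ 2 * 4 ^ a * t m + c := by
    rw [← hc]
    have : (0 : ℝ) < n := by
      have : (0 : ℝ) ≤ n0 := by positivity
      by_contra hcon
      have h0 : (n : ℝ) = 0 := le_antisymm (not_lt.1 hcon) (by positivity)
      rw [h0] at hδn
      linarith
    exact_mod_cast this
  have hmain := mem_of_LB a r s m (t m) c hs (by omega) hane hlt.le (ht m) hK hnpos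
  rw [← hc] at hmain
  have hmainR : ((3 ^ (s * m) * (2 ^ a - 1) ^ 2 : ℕ) : ℝ) ≤ f n := by exact_mod_cast hmain
  refine le_trans ?_ hmainR
  have h2a : (1 : ℕ) ≤ 2 ^ a := Nat.one_le_two_pow
  have hcast : ((3 ^ (s * m) * (2 ^ a - 1) ^ 2 : ℕ) : ℝ) = 3 ^ (s * m) * (2 ^ a - 1) ^ 2 := by
    rw [Nat.cast_mul, Nat.cast_pow, Nat.cast_pow, Nat.cast_sub h2a]
    push_cast; ring
  rw [hcast]
  have hA1 : (1 - 2 * δ) * (t m : ℝ) ≤ 3 ^ (s * m) := auxA1 δ r s m (t m) hq1 hge h1Q (ht m)
  have hA2 : (1 - δ) * (4 : ℝ) ^ a ≤ (2 ^ a - 1) ^ 2 := auxA2 δ hδ a a0 haa0 ha0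
  have hA3 : (1 - 2 * δ) * ((1 - δ) * X) ≤ 3 ^ (s * m) * (2 ^ a - 1) ^ 2 := by
    calc (1 - 2 * δ) * ((1 - δ) * X) = ((1 - 2 * δ) * (t m : ℝ)) * ((1 - δ) * 4 ^ a) := by
          rw [hXdef]; ring
      _ ≤ 3 ^ (s * m) * (2 ^ a - 1) ^ 2 := by
          apply mul_le_mul hA1 hA2
          · have : 0 ≤ 1 - δ := h1δ.le
            positivity
          · positivity
  refine le_trans ?_ hA3
  have h2δ : 0 ≤ 1 - 2 * δ := by linarith
  have hyn : y = (1 - δ) * n / 2 := hy
  have hn0' : (0 : ℝ) ≤ n := by positivity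
  calc (1 - 5 * δ) / 2 * n ≤ (1 - 2 * δ) * ((1 - δ) * ((1 - δ) * y)) := by
        rw [hyn]
        exact auxA3 δ n hδ.le hδ1 hn0'
    _ ≤ (1 - 2 * δ) * ((1 - δ) * X) := by gcongr

theorem bdd (n : ℕ) (hn : 1 ≤ n) :
    BddAbove {k | ∃ T : Fin k → SimpleGraph (Fin n → Bool), IsCIST (cube (Fin n)) T} := by
  refine ⟨n * 2 ^ n, ?_⟩
  rintro k ⟨T, hT⟩
  have h := upper _ _ T hT
  have h2 : 2 ^ 1 ≤ 2 ^ n := Nat.pow_le_pow_right (by norm_num) hn
  have h3 : 1 ≤ 2 ^ n - 1 := by omega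
  nlinarith

theorem greatest (n : ℕ) (hn : 1 ≤ n) :
    IsGreatest {k | ∃ T : Fin k → SimpleGraph (Fin n → Bool), IsCIST (cube (Fin n)) T} (f n) := by
  have hne : {k | ∃ T : Fin k → SimpleGraph (Fin n → Bool), IsCIST (cube (Fin n)) T}.Nonempty :=
    ⟨0, fun i => i.elim0, fun i => i.elim0, fun i => i.elim0, fun i => i.elim0⟩
  exact ⟨Nat.sSup_mem hne (bdd n hn), fun k hk => le_csSup (bdd n hn) hk⟩

/-- **Main theorem.** For every `n ≥ 1` the number `f n` is the largest number of completely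
independent spanning trees of `Q_n`, and `f n / n` converges, to `1/2`. -/
theorem result :
    (∀ n : ℕ, 1 ≤ n → IsGreatest
      {k | ∃ T : Fin k → SimpleGraph (Fin n → Bool), IsCIST (cube (Fin n)) T} (f n)) ∧
    Filter.Tendsto (fun n : ℕ => (f n : ℝ) / n) Filter.atTop (nhds (1 / 2)) := by
  refine ⟨greatest, ?_⟩
  rw [tendsto_order]
  constructor
  · intro a ha
    set δ : ℝ := min (1 / 4) ((1 / 2 - a) / 5) with hδ
    have hδpos : 0 < δ := by
      rw [hδ]; apply lt_min (by norm_num); apply div_pos (by linarith) (by norm_num)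
    have hδ1 : δ ≤ 1 / 4 := min_le_left _ _
    have hδ2 : δ ≤ (1 / 2 - a) / 5 := min_le_right _ _
    filter_upwards [lower δ hδpos hδ1, Filter.eventually_ge_atTop 1] with n hn hn1
    have hnpos : (0 : ℝ) < n := by exact_mod_cast hn1
    rw [lt_div_iff₀ hnpos]
    refine lt_of_lt_of_le ?_ hn
    have : a < (1 - 5 * δ) / 2 := by linarith
    gcongr
  · intro b hb
    obtain ⟨N, hN⟩ : ∃ N : ℕ, 1 / (b - 1 / 2) < 2 ^ N := pow_unbounded_of_one_lt _ (by norm_num)
    filter_upwards [Filter.eventually_ge_atTop N, Filter.eventually_ge_atTop 1] with n hnN hn1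
    have hnpos : (0 : ℝ) < n := by exact_mod_cast hn1
    obtain ⟨T, hT⟩ := (greatest n hn1).1
    have h := upper n (f n) T hT
    have h1 : (1 : ℕ) ≤ 2 ^ n := Nat.one_le_two_pow
    have hR : (2 : ℝ) * (f n * (2 ^ n - 1)) ≤ n * 2 ^ n := by
      have h' : ((2 * (f n * (2 ^ n - 1)) : ℕ) : ℝ) ≤ ((n * 2 ^ n : ℕ) : ℝ) := by exact_mod_cast h
      rw [Nat.cast_mul, Nat.cast_mul, Nat.cast_sub h1] at h'
      push_cast at h'
      exact h'
    have h2n : (2 : ℝ) ^ N ≤ 2 ^ n := pow_le_pow_right₀ (by norm_num) hnN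
    have hb' : 0 < b - 1 / 2 := by linarith
    have h3 : 1 < (b - 1 / 2) * 2 ^ n := by
      rw [div_lt_iff₀ hb'] at hN
      nlinarith
    have h4 : (2 : ℝ) ≤ 2 ^ n := by
      have : (2 : ℝ) ^ 1 ≤ 2 ^ n := pow_le_pow_right₀ (by norm_num) hn1
      simpa using this
    rw [div_lt_iff₀ hnpos]
    by_contra hcon
    push Not at hcon
    have h5 : 2 * ((b * n) * (2 ^ n - 1)) ≤ n * 2 ^ n := by
      refine le_trans ?_ hR
      have : (0 : ℝ) ≤ 2 ^ n - 1 := by linarith
      gcongr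
    have h6 : 2 * (b * (2 ^ n - 1)) ≤ 2 ^ n := by
      have : (n : ℝ) * (2 * (b * (2 ^ n - 1))) ≤ n * 2 ^ n := by linarith
      exact le_of_mul_le_mul_left this hnpos
    nlinarith

end Pool.Agent.Results.MP_1433c5_co.HalfLimit
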